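import Pool.Agent.MP_63af43_lc.H88.Enc
import Pool.Agent.MP_63af43_lc.H88.Param

set_option autoImplicit false

namespace Pool.Agent.Results.MP_63af43_lc.SubPoly

/-- The private coin pairs `(r, q)` for which `((x, r), (y, q))` lies in the rectangle
`A i × B i`. -/
def hits {X Y : Type} {a b m : ℕ} (A : Fin m → Set (X × Fin a)) (B : Fin m → Set (Y × Fin b))
    (x : X) (y : Y) (i : Fin m) : Set (Fin a × Fin b) :=
  {p | (x, p.1) ∈ A i ∧ (y, p.2) ∈ B i}

/-- The rectangles `A i × B i`, `i < m`, with uniform private coins in `Fin a` and `Fin b`, form an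
unambiguous zero-information AM protocol for `f`. -/
def IsZAM {X Y : Type} (f : X → Y → Bool) (a b m : ℕ)
    (A : Fin m → Set (X × Fin a)) (B : Fin m → Set (Y × Fin b)) : Prop :=
  0 < a ∧ 0 < b ∧
  (∀ x y, f x y = true → (⋃ i, hits A B x y i) = Set.univ) ∧
  (∀ x y, f x y = false → 2 * (⋃ i, hits A B x y i).ncard ≤ a * b) ∧
  (∀ x y, f x y = true → ∀ i j, i ≠ j → Disjoint (hits A B x y i) (hits A B x y j)) ∧
  (∀ x y x' y', f x y = true → f x' y' = true → ∀ i,
    (hits A B x y i).ncard = (hits A B x' y' i).ncard)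

theorem result (n : ℕ) (hn : 17 ≤ n) :
    ∃ (a b m : ℕ) (A : Fin m → Set ((Fin n → Bool) × Fin a)) (B : Fin m → Set (Fin n × Fin b)),
      IsZAM (fun (x : Fin n → Bool) (y : Fin n) => x y) a b m A B ∧
      (Nat.clog 2 m : ℝ) ≤ Real.exp (40 * Real.sqrt (Real.log n * Real.log (Real.log n))) := by
  obtain ⟨s, hs, hns, hb⟩ := Pool.Agent.MP_63af43_lc.H88.exists_param n hn
  obtain ⟨k1, k2, m, h1, h2, hm, a, b, hbij, hsm⟩ :=
    Pool.Agent.MP_63af43_lc.H88.exists_enc2 s n hs hns
  have hh : ∀ x y i, hits (fun i => {p : (Fin n → Bool) × Fin k1 | a p.1 i = p.2})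
      (fun i => {p : Fin n × Fin k2 | b p.1 i = p.2}) x y i = {(a x i, b y i)} := by
    intro x y i
    ext p
    simp [hits, Prod.ext_iff, eq_comm]
  refine ⟨k1, k2, m, fun i => {p | a p.1 i = p.2}, fun i => {p | b p.1 i = p.2},
    ⟨h1, h2, ?_, ?_, ?_, ?_⟩, ?_⟩
  · intro x y hxy
    simp only [hh, Set.iUnion_singleton_eq_range]
    exact (hbij x y hxy).2.range_eq
  · intro x y hxy
    simp only [hh, Set.iUnion_singleton_eq_range]
    exact hsm x y hxy
  · intro x y hxy i j hij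
    rw [hh, hh, Set.disjoint_singleton]
    exact fun h => hij ((hbij x y hxy).1 h)
  · intro x y x' y' _ _ i
    rw [hh, hh, Set.ncard_singleton, Set.ncard_singleton]
  · refine le_trans ?_ hb
    exact_mod_cast (Nat.clog_le_iff_le_pow (by norm_num)).mpr hm

end Pool.Agent.Results.MP_63af43_lc.SubPoly
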